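import Pool.Agent.Q120.BU.Stm

/-!
# Job BU-KL2 (project BU of helper120): the chi-square bound for the relative entropy of Bernoulli laws
-/

set_option autoImplicit false

namespace Pool.Agent.Q223.BU

open Finset MeasureTheory Filter Pool.Agent.Q120.ET Pool.Agent.Q120.ME Pool.Agent.Q120.BU Polynomial

theorem up (a b : ℝ) (ha : 0 ≤ a) (hb : 0 < b) : a * Real.log (a / b) ≤ a * (a / b - 1) := by
  rcases eq_or_lt_of_le ha with h | h
  · rw [← h]; simp
  · exact mul_le_mul_of_nonneg_left (Real.log_le_sub_one_of_pos (div_pos h hb)) ha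

theorem lo (a b : ℝ) (ha : 0 ≤ a) (hb : 0 < b) : a - b ≤ a * Real.log (a / b) := by
  rcases eq_or_lt_of_le ha with h | h
  · rw [← h]; simp; exact hb.le
  · have h1 := Real.one_sub_inv_le_log_of_pos (div_pos h hb)
    have h2 := mul_le_mul_of_nonneg_left h1 ha
    have h3 : a * (1 - (a / b)⁻¹) = a - b := by
      field_simp
    linarith

theorem t_KL2 : J_KL2 := by
  intro a b ha ha1 hb hb1
  have hc : 0 < 1 - b := by linarith
  have hd : 0 ≤ 1 - a := by linarith
  unfold Pool.Agent.Q120.ME.kl
  constructor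
  · have h1 := lo a b ha hb
    have h2 := lo (1 - a) (1 - b) hd hc
    linarith
  · have h1 := up a b ha hb
    have h2 := up (1 - a) (1 - b) hd hc
    have h3 : a * (a / b - 1) + (1 - a) * ((1 - a) / (1 - b) - 1) = (a - b) ^ 2 / (b * (1 - b)) := by
      field_simp
      ring
    linarith

end Pool.Agent.Q223.BU
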